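import Pool.Agent.W278.EM.Final
import Pool.Agent.W462.EM.LD

/-!
# The local embedding problem for Hardy spaces of Dirichlet series

For `p ≥ 1` and `L > 0` the inequality
`∫_τ^{τ+L} |F(1/2+it)|^p dt ≤ C ‖F‖_{H^p}^p` (all Dirichlet polynomials `F`, all real `τ`)
holds for some constant `C` if and only if `p ≥ 2`.

The proof for `p > 2` is by duality.  The function on the interval is tested against a step
function, which is expanded in Haar functions; a Calderón–Zygmund stopping argument groups the Haar
coefficients.  The Dirichlet polynomial is decomposed into the blocks of primes with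
`2^l ≤ log q < 2^(l+1)`, and the pairing of one block with Haar functions of the scale `2^(-l)` is
estimated by the reproducing formula of the polydisc, multiplied by analytic bumps localizing at the
stopping intervals, a large sieve inequality for the block, and a weighted inequality which replaces
the square function (`Pool.Agent.W278.EM.WL`, `ML`, `Core`, `Score`).  The failure for `1 ≤ p < 2`
uses random multiplicative chaos type lower and upper bounds.
-/

set_option autoImplicit false

namespace Pool.Agent.Results.MP_1e909f_an.LocalEmbedding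

open Filter Topology

theorem result (p : ℝ) (hp : 1 ≤ p) (L : ℝ) (hL : 0 < L) :
    -- the norm is well defined: the mean value exists for every Dirichlet polynomial
    (∀ (N : ℕ) (a : ℕ → ℂ), ∃ M : ℝ,
      Tendsto (fun T : ℝ => (1 / (2 * T)) * ∫ t in (-T)..T,
        ‖∑ n ∈ Finset.Icc 1 N, a n * (n : ℂ) ^ (-((t : ℂ) * Complex.I))‖ ^ p) atTop (𝓝 M)) ∧
    -- the local embedding inequality holds if and only if `2 ≤ p`
    ((∃ C : ℝ, ∀ (N : ℕ) (a : ℕ → ℂ) (M : ℝ),
      Tendsto (fun T : ℝ => (1 / (2 * T)) * ∫ t in (-T)..T,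
        ‖∑ n ∈ Finset.Icc 1 N, a n * (n : ℂ) ^ (-((t : ℂ) * Complex.I))‖ ^ p) atTop (𝓝 M) →
      ∀ τ : ℝ, ∫ t in τ..(τ + L),
        ‖∑ n ∈ Finset.Icc 1 N, a n * (n : ℂ) ^ (-(1 / 2 + (t : ℂ) * Complex.I))‖ ^ p ≤ C * M) ↔
      2 ≤ p) :=
  Pool.Agent.W278.EM.final_DP (Pool.Agent.W278.EM.spos_all
    (Pool.Agent.W462.EM.sld_of Pool.Agent.W196.EMN.sn2 Pool.Agent.W196.EMN.sn5)) p hp L hL

end Pool.Agent.Results.MP_1e909f_an.LocalEmbedding
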